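import Pool.Agent.helper17.MLG.Spec

/-!
# Project mlg (MP_84f457_gt), row CSM: left mollification is smooth
-/

set_option autoImplicit false
set_option linter.unusedSectionVars false

namespace Pool.Agent.MLG

open MeasureTheory Set Filter Topology Module
open scoped ENNReal ContDiff

theorem CSM (hMES : MES_stmt) : CSM_stmt := by
  intro V _ _ _ _ _ _ hV m u hm hu
  have hT : IsTopologicalGroup V := top hV
  obtain ⟨hH, -, -⟩ := hMES V hV
  -- substitution
  have hsub : ∀ x : V, cv m u x = ∫ t, m (x * t) * u t⁻¹ ∂(vol V) := by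
    intro x
    unfold cv
    rw [← integral_mul_left_eq_self (μ := vol V) (fun g => m g * u (g⁻¹ * x)) x]
    congr 1
    funext t
    rw [mul_inv_rev, mul_assoc, inv_mul_cancel, mul_one]
  have humeas : Measurable (fun t : V => u t⁻¹) := hu.meas.comp measurable_inv
  have hloc : LocallyIntegrable (fun t : V => u t⁻¹) (vol V) := by
    refine (locallyIntegrable_const (1 : ℝ)).mono humeas.aestronglyMeasurable (Eventually.of_forall fun t => ?_)
    rw [Real.norm_eq_abs, Real.norm_eq_abs, abs_of_nonneg (hu.nonneg _), abs_one]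
    exact hu.le_one _
  have hcont : ContDiff ℝ ∞ (cv m u) := by
    rw [contDiff_iff_contDiffAt]
    intro x₀
    have hs : IsOpen (Metric.ball (0 : V) (‖x₀‖ + 1)) := Metric.isOpen_ball
    have hx₀ : x₀ ∈ Metric.ball (0 : V) (‖x₀‖ + 1) := by
      rw [mem_ball_zero_iff]
      exact lt_add_one _
    have hk : IsCompact ((fun p : V × V => -(p.1⁻¹ * p.2)) ''
        (Metric.closedBall (0 : V) (‖x₀‖ + 1) ×ˢ tsupport m)) := by
      apply IsCompact.image
      · exact (isCompact_closedBall _ _).prod hm.supp
      · fun_prop
    have key := contDiffOn_convolution_right_with_param_comp (μ := vol V) (n := ⊤)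
      (ContinuousLinearMap.mul ℝ ℝ) (s := Metric.ball (0 : V) (‖x₀‖ + 1)) (v := fun _ : V => (0 : V))
      contDiffOn_const (f := fun t : V => u t⁻¹) (g := fun x t => m (x * -t)) hs hk ?_ hloc ?_
    · have h2 : ContDiffOn ℝ ∞ (cv m u) (Metric.ball (0 : V) (‖x₀‖ + 1)) := by
        refine key.congr fun x _ => ?_
        rw [hsub x]
        unfold convolution
        congr 1
        funext t
        show m (x * t) * u t⁻¹ = u t⁻¹ * m (x * -(0 - t))
        rw [zero_sub, neg_neg]
        exact mul_comm _ _
      exact h2.contDiffAt (hs.mem_nhds hx₀)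
    · intro p x hp hx
      by_contra hne
      apply hx
      refine ⟨(p, p * -x), ⟨Metric.ball_subset_closedBall hp, subset_tsupport m hne⟩, ?_⟩
      show -(p⁻¹ * (p * -x)) = x
      rw [inv_mul_cancel_left, neg_neg]
    · apply ContDiff.contDiffOn
      show ContDiff ℝ ∞ (fun q : V × V => m (q.1 * -q.2))
      exact hm.smooth.comp (hV.1.comp (contDiff_fst.prodMk contDiff_snd.neg))
  refine ⟨hcont, hcont.continuous.measurable, fun x => ?_, fun x => ?_⟩
  · exact integral_nonneg fun g => mul_nonneg (hm.nonneg g) (hu.nonneg _)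
  · rw [← hm.int]
    apply integral_mono_of_nonneg
    · exact Eventually.of_forall fun g => mul_nonneg (hm.nonneg g) (hu.nonneg _)
    · by_contra h
      have h1 := integral_undef h
      rw [hm.int] at h1
      exact one_ne_zero h1
    · exact Eventually.of_forall fun g => mul_le_of_le_one_right (hm.nonneg g) (hu.le_one _)

end Pool.Agent.MLG
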