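import Pool.Agent.helper17.MLG.Spec

/-!
# Project mlg (MP_84f457_gt), row REG: minimisers are compact regions
-/

set_option autoImplicit false
set_option linter.unusedSectionVars false

namespace Pool.Agent.MLG

open MeasureTheory Set Filter Topology Module
open scoped ENNReal ContDiff

theorem REG_le {V : Type} [NormedAddCommGroup V] [InnerProductSpace ℝ V] [FiniteDimensional ℝ V]
    [MeasurableSpace V] [BorelSpace V] [Group V] {v : ℝ} {E : Set V} (hE : MeasurableSet E)
    (hv : vol V E = ENNReal.ofReal v) : prof V v ≤ per E :=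
  iInf_le_of_le E (iInf_le_of_le hE (iInf_le_of_le hv le_rfl))

theorem REG (hCON : CON_stmt) (hEXI : EXI_stmt) (hSUP : SUP_stmt) (hPER : PER_stmt) (hMES : MES_stmt) :
    REG_stmt := by
  intro V _ _ _ _ _ _ hV hn v hv
  obtain ⟨E₀, hE₀, hvE₀, hpE₀⟩ := hEXI V hV hn v hv
  obtain ⟨S, O, hS, hO, hOS, hcl, hnull, hae⟩ := hSUP V hV hn E₀ v hv hE₀ hvE₀ hpE₀
  obtain ⟨-, hcongr, -, -, -⟩ := hPER V hV
  have hOi : O ⊆ interior S := interior_maximal hOS hO
  have hreg : IsRegion S := by
    refine ⟨hS, Subset.antisymm ?_ ?_⟩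
    · exact closure_minimal interior_subset hS.isClosed
    · calc S = closure O := hcl.symm
        _ ⊆ closure (interior S) := closure_mono hOi
  have hvS : vol V S = ENNReal.ofReal v := by rw [measure_congr hae, hvE₀]
  have hpS : per S = prof V v := by rw [hcongr S E₀ hae, hpE₀]
  have hlow : ∀ F : Set V, IsRegion F → vol V F = ENNReal.ofReal v → prof V v ≤ per F :=
    fun F hF hvF => REG_le hF.1.measurableSet hvF
  have hfr : vol V (frontier S) = 0 := by
    refine measure_mono_null ?_ hnull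
    rw [hS.isClosed.frontier_eq]
    exact diff_subset_diff_right hOi
  refine ⟨le_antisymm ?_ ?_, ⟨S, ⟨hreg, fun F hF hvF => ?_⟩, hvS, hfr⟩, fun E hE hvE => ⟨fun h => ?_, fun h => ?_⟩⟩
  · rw [← hpS]
    exact iInf_le_of_le S (iInf_le_of_le hreg (iInf_le_of_le hvS le_rfl))
  · exact le_iInf fun F => le_iInf fun hF => le_iInf fun hvF => hlow F hF hvF
  · rw [hpS]
    exact hlow F hF (hvF.trans hvS)
  · refine le_antisymm ?_ (hlow E hE hvE)
    rw [← hpS]
    exact h.2 S hreg (hvS.trans hvE.symm)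
  · refine ⟨hE, fun F hF hvF => ?_⟩
    rw [h]
    exact hlow F hF (hvF.trans hvE)

end Pool.Agent.MLG
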