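import Pool.Agent.helper17.MLG.Spec

/-!
# Project mlg (MP_84f457_gt), row RTS: right translations by elements close to the unit
-/

set_option autoImplicit false
set_option linter.unusedSectionVars false

namespace Pool.Agent.MLG

open MeasureTheory Set Filter Topology Module
open scoped ENNReal ContDiff

section aux

variable {V : Type} [NormedAddCommGroup V] [InnerProductSpace ℝ V] [FiniteDimensional ℝ V] [MeasurableSpace V]
  [BorelSpace V] [Group V]

theorem RTS_gr (hfr : Continuous (fr : V → V →L[ℝ] V)) (u : V → ℝ) (hu : ContDiff ℝ ∞ u) :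
    Continuous (gr u) := by
  unfold gr
  have h1 : Continuous (fderiv ℝ u) := hu.continuous_fderiv (by simp)
  exact (InnerProductSpace.toDual ℝ V).symm.continuous.comp (h1.clm_comp hfr)

/-- the derivative of the left translation by `c⁻¹` at `c` -/
noncomputable def RTS_A (c : V) : V →L[ℝ] V := fderiv ℝ (fun y : V => c⁻¹ * y) c

theorem RTS_A_cont (hV : IsLie V) : Continuous (RTS_A : V → V →L[ℝ] V) := by
  have h1 : ContDiff ℝ ∞ (Function.uncurry fun c y : V => c⁻¹ * y) :=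
    hV.1.comp ((hV.2.comp contDiff_fst).prodMk contDiff_snd)
  have h2 : ContDiff ℝ 0 (fun c : V => fderiv ℝ (fun y : V => c⁻¹ * y) c) :=
    ContDiff.fderiv h1 contDiff_id (by simp)
  exact h2.continuous

theorem RTS_fd (hV : IsLie V) (x c : V) :
    fderiv ℝ (fun y : V => x * y) c = (fr (x * c)).comp (RTS_A c) := by
  have h1 : (fun y : V => x * y) = (fun z : V => (x * c) * z) ∘ fun y : V => c⁻¹ * y := by
    funext y
    show x * y = x * c * (c⁻¹ * y)
    rw [mul_assoc, mul_inv_cancel_left]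
  have h2 : DifferentiableAt ℝ (fun y : V => c⁻¹ * y) c :=
    ((smooth_left hV c⁻¹).differentiable (by simp)) c
  have h3 : DifferentiableAt ℝ (fun z : V => (x * c) * z) (c⁻¹ * c) :=
    ((smooth_left hV (x * c)).differentiable (by simp)) _
  rw [h1, fderiv_comp c h3 h2]
  unfold fr RTS_A
  rw [inv_mul_cancel]

theorem RTS_pt (hV : IsLie V) (hfr : Continuous (fr : V → V →L[ℝ] V)) (u : V → ℝ) (hu : ContDiff ℝ ∞ u)
    (C : ℝ) (hC : ∀ c : V, ‖c - 1‖ ≤ 1 → ‖RTS_A c‖ ≤ C) (g : V) (hg : ‖g - 1‖ ≤ 1) (x : V) :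
    ENNReal.ofReal |u (x * g) - u x| ≤ ENNReal.ofReal (C * ‖g - 1‖) *
      ∫⁻ s in Ioc (0 : ℝ) 1, ‖gr u (x * (1 + s • (g - 1)))‖ₑ := by
  have hT : IsTopologicalGroup V := top hV
  have hd : ∀ s : ℝ, HasDerivAt (fun s : ℝ => u (x * (1 + s • (g - 1))))
      (inner ℝ (gr u (x * (1 + s • (g - 1)))) (RTS_A (1 + s • (g - 1)) (g - 1))) s := by
    intro s
    have h1 : HasDerivAt (fun s : ℝ => (1 : V) + s • (g - 1)) (g - 1) s := by
      have h := ((hasDerivAt_id s).smul_const (g - 1)).const_add (1 : V)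
      rwa [one_smul] at h
    have h2 : HasFDerivAt (fun y : V => x * y) (fderiv ℝ (fun y : V => x * y) (1 + s • (g - 1)))
        (1 + s • (g - 1)) :=
      (((smooth_left hV x).differentiable (by simp)) _).hasFDerivAt
    have h3 : HasFDerivAt u (fderiv ℝ u (x * (1 + s • (g - 1)))) (x * (1 + s • (g - 1))) :=
      ((hu.differentiable (by simp)) _).hasFDerivAt
    have h4 := h3.comp_hasDerivAt s (h2.comp_hasDerivAt s h1)
    rw [RTS_fd hV, ContinuousLinearMap.comp_apply, ← inner_gr] at h4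
    exact h4
  have hgr := RTS_gr hfr u hu
  have hA := RTS_A_cont hV
  have hc : Continuous fun s : ℝ => (1 : V) + s • (g - 1) := by fun_prop
  have hcx : Continuous fun s : ℝ => x * ((1 : V) + s • (g - 1)) := continuous_const.mul hc
  have hF : Continuous fun s : ℝ =>
      (inner ℝ (gr u (x * (1 + s • (g - 1)))) (RTS_A (1 + s • (g - 1)) (g - 1)) : ℝ) :=
    (hgr.comp hcx).inner ((hA.comp hc).clm_apply continuous_const)
  have hint := intervalIntegral.integral_eq_sub_of_hasDerivAt (a := 0) (b := 1) (fun s _ => hd s)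
    (hF.intervalIntegrable 0 1)
  rw [one_smul, zero_smul, add_zero, mul_one, add_sub_cancel] at hint
  rw [← hint, ← Real.norm_eq_abs, ofReal_norm, intervalIntegral.integral_of_le zero_le_one]
  refine (enorm_integral_le_lintegral_enorm _).trans ?_
  rw [← lintegral_const_mul' _ _ ENNReal.ofReal_ne_top]
  refine setLIntegral_mono' measurableSet_Ioc fun s hs => ?_
  rw [← ofReal_norm, ← ofReal_norm, ← ENNReal.ofReal_mul (by
    have h0 := (norm_nonneg _).trans (hC 1 (by rw [sub_self, norm_zero]; exact zero_le_one))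
    positivity)]
  apply ENNReal.ofReal_le_ofReal
  have h5 : ‖(1 + s • (g - 1) : V) - 1‖ ≤ 1 := by
    rw [add_sub_cancel_left, norm_smul, Real.norm_eq_abs, abs_of_pos hs.1]
    calc s * ‖g - 1‖ ≤ 1 * 1 := mul_le_mul hs.2 hg (norm_nonneg _) zero_le_one
      _ = 1 := one_mul 1
  calc ‖(inner ℝ (gr u (x * (1 + s • (g - 1)))) (RTS_A (1 + s • (g - 1)) (g - 1)) : ℝ)‖
      ≤ ‖gr u (x * (1 + s • (g - 1)))‖ * ‖RTS_A (1 + s • (g - 1)) (g - 1)‖ := norm_inner_le_norm _ _
    _ ≤ ‖gr u (x * (1 + s • (g - 1)))‖ * (C * ‖g - 1‖) := by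
        apply mul_le_mul_of_nonneg_left _ (norm_nonneg _)
        exact ((RTS_A (1 + s • (g - 1))).le_opNorm _).trans
          (mul_le_mul_of_nonneg_right (hC _ h5) (norm_nonneg _))
    _ = C * ‖g - 1‖ * ‖gr u (x * (1 + s • (g - 1)))‖ := mul_comm _ _

end aux

theorem RTS (hFRA : FRA_stmt) (hMES : MES_stmt) (hRTM : RTM_stmt) : RTS_stmt := by
  intro V _ _ _ _ _ _ hV
  have hT : IsTopologicalGroup V := top hV
  obtain ⟨hH, -, -⟩ := hMES V hV
  have hfr : Continuous (fr : V → V →L[ℝ] V) := (hFRA V hV).1.continuous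
  obtain ⟨C₂, hC₂, hR⟩ := hRTM V hV
  obtain ⟨C₁, hC₁⟩ := (isCompact_closedBall (1 : V) 1).exists_bound_of_continuousOn
    (RTS_A_cont hV).continuousOn
  have hC₁' : ∀ c : V, ‖c - 1‖ ≤ 1 → ‖RTS_A c‖ ≤ max C₁ 1 := fun c hc =>
    (hC₁ c (by rwa [mem_closedBall_iff_norm])).trans (le_max_left _ _)
  have hm : 0 < max C₁ 1 := lt_max_of_lt_right one_pos
  refine ⟨max C₁ 1 * C₂, 1, mul_pos hm hC₂, one_pos, fun u hu g hg => ?_⟩
  have hgr := RTS_gr hfr u hu
  have hcc : Continuous fun p : V × ℝ => p.1 * ((1 : V) + p.2 • (g - 1)) :=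
    continuous_fst.mul (by fun_prop)
  calc ∫⁻ x, ENNReal.ofReal |u (x * g) - u x| ∂(vol V)
      ≤ ∫⁻ x, (ENNReal.ofReal (max C₁ 1 * ‖g - 1‖) *
          ∫⁻ s in Ioc (0 : ℝ) 1, ‖gr u (x * (1 + s • (g - 1)))‖ₑ) ∂(vol V) :=
        lintegral_mono fun x => RTS_pt hV hfr u hu _ hC₁' g hg x
    _ = ENNReal.ofReal (max C₁ 1 * ‖g - 1‖) *
          ∫⁻ x, (∫⁻ s in Ioc (0 : ℝ) 1, ‖gr u (x * (1 + s • (g - 1)))‖ₑ) ∂(vol V) :=
        lintegral_const_mul' _ _ ENNReal.ofReal_ne_top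
    _ = ENNReal.ofReal (max C₁ 1 * ‖g - 1‖) *
          ∫⁻ s in Ioc (0 : ℝ) 1, (∫⁻ x, ‖gr u (x * (1 + s • (g - 1)))‖ₑ ∂(vol V)) := by
        rw [lintegral_lintegral_swap]
        exact ((hgr.comp hcc).enorm.measurable).aemeasurable
    _ ≤ ENNReal.ofReal (max C₁ 1 * ‖g - 1‖) *
          ∫⁻ s in Ioc (0 : ℝ) 1, (ENNReal.ofReal C₂ * ∫⁻ x, ‖gr u x‖ₑ ∂(vol V)) := by
        apply mul_le_mul_right
        refine setLIntegral_mono' measurableSet_Ioc fun s hs => ?_
        apply hR (fun x => ‖gr u x‖ₑ) hgr.enorm.measurable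
        rw [add_sub_cancel_left, norm_smul, Real.norm_eq_abs, abs_of_pos hs.1]
        calc s * ‖g - 1‖ ≤ 1 * 1 := mul_le_mul hs.2 hg (norm_nonneg _) zero_le_one
          _ = 1 := one_mul 1
    _ = ENNReal.ofReal (max C₁ 1 * C₂ * ‖g - 1‖) * ∫⁻ x, ‖gr u x‖ₑ ∂(vol V) := by
        rw [setLIntegral_const, Real.volume_Ioc, sub_zero, ENNReal.ofReal_one, mul_one, ← mul_assoc,
          ← ENNReal.ofReal_mul (mul_nonneg hm.le (norm_nonneg _))]
        congr 2
        ring

end Pool.Agent.MLG
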